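import Pool.Agent.H577.SQ.Conjugate

set_option autoImplicit false

/-!
# Solutions of Fermat's equation of small height in quadratic fields are conjugate pairs

Let `n ≥ 5` be prime to 6 and `Q` a natural number with `Q (2 log n + 5) ≤ n` and
`2 Q ≤ minFac n` (for a prime `n` the second condition follows from the first one). Let `K` be
an imaginary quadratic field, or a real quadratic field such that the same one of `x, y, z` has
the smallest absolute value at both real embeddings, and let `x, y, z ≠ 0` in `K` satisfy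
`x ^ n + y ^ n = z ^ n` and `4 H(x : y : z) < Q ^ n`. Then the solution is trivial, or it is
given by an `α` in `K` with `α ^ n + α' ^ n = 1`, where `α'` is the conjugate of `α`, and there
are integers `1 ≤ q < r < Q` such that `|N(1 - α)| / Tr(α) ^ 2 = (r / q) ^ n`, the height is `r ^ n`
up to bounded factors, and every prime divisor of `r` splits in `K`.

Proof: at the finite places the three sums of two of `x, y, -z` have norms
`r_i ^ n / Hf` (`Norms`). At a complex place at most one of the sums is small, the powers `r_i ^ n`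
belonging to the other two are equal, so that the absolute values of these two sums are equal,
and then a convexity argument (`swap`) shows that the point is a conjugate pair. At real places
the sums are monotone functions of the position of the point on the curve.
-/

namespace Pool.Agent.Results.MP_50a406_nt.ConjugatePairs

open NumberField Pool.Agent.W7.FH Height

/-- the prime number `l` splits in `K`: two different prime ideals contain it -/
def Splits (K : Type) [Field K] [NumberField K] (l : ℕ) : Prop :=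
  ∃ P Q : Ideal (𝓞 K), P.IsPrime ∧ Q.IsPrime ∧ P ≠ Q ∧ (l : 𝓞 K) ∈ P ∧ (l : 𝓞 K) ∈ Q

theorem result : ∀ (n Q : ℕ), 5 ≤ n → Nat.Coprime n 6 → 2 * Q ≤ n.minFac →
    (Q : ℝ) * (2 * Real.log n + 5) ≤ n →
    ∀ (K : Type) [Field K] [NumberField K], Module.finrank ℚ K = 2 →
    ∀ x y z : K, x ≠ 0 → y ≠ 0 → z ≠ 0 → x ^ n + y ^ n = z ^ n →
    (∃ i : Fin 3, ∀ (f : K →+* ℝ) (j : Fin 3), |f (![x, y, z] i)| ≤ |f (![x, y, z] j)|) →
    4 * mulHeight ![x, y, z] < (Q : ℝ) ^ n →
    (∃ ζ : K, IsPrimitiveRoot ζ 6 ∧ y = x * ζ ^ 2 ∧ z = x * ζ) ∨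
    ∃ (s : K ≃ₐ[ℚ] K) (α : K) (q r : ℕ), s ≠ 1 ∧ α ^ n + (s α) ^ n = 1 ∧
      ((x = α * z ∧ y = s α * z) ∨ (y = -(α * x) ∧ z = s α * x) ∨ (z = α * y ∧ x = -(s α * y))) ∧
      1 ≤ q ∧ q < r ∧ r < Q ∧
      |Algebra.norm ℚ (1 - α)| * (q : ℚ) ^ n = (r : ℚ) ^ n * (Algebra.trace ℚ K α) ^ 2 ∧
      (r : ℝ) ^ n ≤ 4 * mulHeight ![x, y, z] ∧ 4 * mulHeight ![x, y, z] ≤ 8 * n * (r : ℝ) ^ n ∧
      (IsTotallyComplex K → 4 * mulHeight ![x, y, z] ≤ 5 * (r : ℝ) ^ n) ∧
      ∀ l : ℕ, l.Prime → l ∣ r → Splits K l := by
  intro n Q h5 h6 hQ1 hQ K _ _ hK x y z hx hy hz hF hmin hH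
  have hodd : Odd n := by
    have hm : ∀ p : ℕ, p.Prime → p ∣ n → Module.finrank ℚ K + 1 < p := by
      rw [hK]; exact prime_gt_three h6
    exact odd_of_big Module.finrank_pos hm
  have hheight : mulHeight ![x, y, -z] = mulHeight ![x, y, z] := by
    have h1 : ∀ w : K, ![x, y, w] ≠ 0 := fun w h0 => hx (congrFun h0 0)
    rw [NumberField.mulHeight_eq (h1 _), NumberField.mulHeight_eq (h1 _)]
    congr 1
    · refine Finset.prod_congr rfl fun v _ => ?_
      congr 1
      refine iSup_congr fun i => ?_
      fin_cases i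
      · rfl
      · rfl
      · exact v.1.map_neg z
    · refine finprod_congr fun v => ?_
      refine iSup_congr fun i => ?_
      fin_cases i
      · rfl
      · rfl
      · exact v.1.map_neg z
  have hF' : x ^ n + y ^ n + (-z) ^ n = 0 := by
    rw [hodd.neg_pow, hF, add_neg_cancel]
  have ht : ∀ i, (![x, y, -z] : Fin 3 → K) i ≠ 0 := by
    intro i
    fin_cases i
    · exact hx
    · exact hy
    · exact neg_ne_zero.2 hz
  have habs : ∀ (f : K →+* ℝ) (i : Fin 3), |f (![x, y, -z] i)| = |f (![x, y, z] i)| := by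
    intro f i
    fin_cases i
    · rfl
    · rfl
    · change |f (-z)| = |f z|
      rw [map_neg, abs_neg]
  have key := H577.SQ.conj_main K hK h5 h6 hQ1 hQ ![x, y, -z] ht hF'
    (by
      change 4 * mulHeight ![x, y, -z] < _
      rw [hheight]
      exact hH) (by
      obtain ⟨i, hi⟩ := hmin
      refine ⟨i, fun f j => ?_⟩
      rw [habs, habs]
      exact hi f j)
  rcases key with h1 | ⟨s, o, q, r, hs, hq, hqr, hrQ, h1, h2, h3, h4, h7, h8⟩
  · exact Or.inl (trivial_form hx h1.1 h1.2)
  right
  change (r : ℝ) ^ n ≤ 4 * mulHeight ![x, y, -z] at h3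
  change 4 * mulHeight ![x, y, -z] ≤ _ at h4
  change IsTotallyComplex K → 4 * mulHeight ![x, y, -z] ≤ _ at h7
  rw [hheight] at h3 h4 h7
  set t : Fin 3 → K := ![x, y, -z] with htd
  refine ⟨s, -(t (o + 1) / t o), q, r, hs, ?_, ?_, hq, hqr, hrQ, ?_, h3, h4, h7, h8⟩
  · rw [map_neg, h1, hodd.neg_pow, hodd.neg_pow]
    have h9 := H577.SQ.fermat_cyc t hF' o
    have h10 : (t o) ^ n ≠ 0 := pow_ne_zero _ (ht o)
    rw [div_pow, div_pow]
    field_simp
    linear_combination -h9
  · rw [map_neg, h1]
    have hx' := hx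
    fin_cases o
    · right
      left
      change y = -(-(y / x) * x) ∧ z = -(-z / x) * x
      constructor
      · field_simp
      · field_simp
    · right
      right
      change z = -(-z / y) * y ∧ x = -(-(x / y) * y)
      constructor
      · field_simp
      · field_simp
    · left
      change x = -(x / -z) * z ∧ y = -(y / -z) * z
      constructor
      · field_simp
      · field_simp
  · rw [sub_neg_eq_add, map_neg, neg_sq]
    exact h2

end Pool.Agent.Results.MP_50a406_nt.ConjugatePairs
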