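import Pool.Agent.H576.FN.Core
import Pool.Graph.R_pool_sql_team_seeded_2aa45f1a.Results.MP_50a406_nt.TypesAtSplitPrimes

/-!
# Fermat's equation over quadratic fields: the norms of `x, y, z` are different

Let `K` be a quadratic field of discriminant `d`, `p ≥ 7` a regular prime (that is, `p` does not divide
the class number of the field of `p`-th roots of unity), `p ∣ n`, and `x ^ n + y ^ n = z ^ n` with nonzero
`x, y, z` in `K`. Suppose that `p` satisfies the criterion of Wieferich or that of Kummer and Eichler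
over `K` (as in the library theorem `TypesAtSplitPrimes`), and that only one prime of `K` lies above
`p`, or that only one prime of `K` lies above two and `p` is not a Wieferich prime, or that three
ramifies in `K` and `3 ^ (p - 1)` is not `1` modulo `p ^ 2`. Then the absolute values of the norms of
`x, y, z` are pairwise different. In particular no two of `x, y, z` are conjugate, and no two of them
differ by a unit factor.

For even discriminants `d` the conditions are only that `p` is regular and not a Wieferich prime.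

Proof. Let `X ^ p + Y ^ p + Z ^ p = 0` be the scaled solution, with the conjugation `σ` of `K`, and
suppose that the norms of `X` and `Y` have the same absolute value. By the theorem of the library at
each prime above `p` exactly one of `X, Y, Z` is more divisible than the other two, and this cannot be
`X` at one prime and `Y` at another. As the norms of `X` and `Y` have the same valuation, it must be
`Z` at each prime above `p`. If `N X = - N Y` then `t = X / Y` is `- 1` modulo all primes above `p`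
while `t σ(t) = - 1`, which is impossible. If `N X = N Y` then the equation and its conjugate show
that `σ(Y / Z) ^ p = (X / Z) ^ p`, so `X / Z` and `Y / Z` are conjugate. Hence they are the roots of a
quadratic polynomial with rational coefficients whose constant term is divisible by `p` in the
denominator, and the descent of Kummer for such pairs (a library theorem, over the field of `p`-th
roots of unity, for regular `p`) is a contradiction.
-/

set_option autoImplicit false

namespace Pool.Agent.Results.MP_50a406_nt.DistinctNorms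

open NumberField IsDedekindDomain

/-- The even numbers `k` with `2 ≤ k ≤ p - 3` for which `p` divides the numerator of the Bernoulli
number with index `k`. Their number is the index of irregularity of `p`. -/
def Irregular (p : ℕ) : Finset ℕ :=
  (Finset.range p).filter fun k => Even k ∧ 2 ≤ k ∧ k + 3 ≤ p ∧ (p : ℤ) ∣ (bernoulli k).num

/-- The criteria of Wieferich and of Kummer and Eichler for the prime `p` over the quadratic field
`K` (for the first case). -/
def Criterion (K : Type) [Field K] [NumberField K] (p : ℕ) : Prop :=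
  (¬ p ^ 2 ∣ 2 ^ (p - 1) - 1 ∧
    (Even (NumberField.discr K) ∨
      (NumberField.discr K % 8 = 1 ∧ (¬ (p : ℤ) ∣ (bernoulli (p - 3)).num ∨
        ¬ ∃ s : ZMod p, s ≠ 0 ∧ s ^ 2 = -15 * (NumberField.discr K : ZMod p))) ∨
      (NumberField.discr K % 8 = 5 ∧
        ¬ ∃ s : ZMod p, s ≠ 0 ∧ s ^ 2 = -3 * (NumberField.discr K : ZMod p)))) ∨
  ((¬ ∃ s : ZMod p, s ≠ 0 ∧ s ^ 2 = -3 * (NumberField.discr K : ZMod p)) ∧
    ((¬ (p : ℤ) ∣ (bernoulli (p - 3)).num ∧ (¬ (p : ℤ) ∣ (bernoulli (p - 5)).num ∨
        ¬ ∃ s : ZMod p, s ≠ 0 ∧ s ^ 2 = -7 * (NumberField.discr K : ZMod p))) ∨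
      2 * (((Irregular p).card + 1) * ((Irregular p).card + 2)) + 3 ≤ p))

/-- Exactly one prime of `K` lies above the prime number `q`. -/
def OneAbove (K : Type) [Field K] [NumberField K] (q : ℕ) : Prop :=
  ∀ v w : HeightOneSpectrum (𝓞 K), (q : 𝓞 K) ∈ v.asIdeal → (q : 𝓞 K) ∈ w.asIdeal → v = w

theorem result (K : Type) [Field K] [NumberField K] (hK : Module.finrank ℚ K = 2)
    (p n : ℕ) (hp : p.Prime) (h7 : 7 ≤ p) (hreg : ¬ p ∣ classNumber (CyclotomicField p ℚ))
    (hn : p ∣ n) (hC : Criterion K p)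
    (h1 : OneAbove K p ∨
      (OneAbove K 2 ∧ ¬ p ^ 2 ∣ 2 ^ (p - 1) - 1) ∨
      (OneAbove K 3 ∧ 3 ∣ NumberField.discr K ∧ ¬ p ^ 2 ∣ 3 ^ (p - 1) - 1))
    (x y z : K) (hx : x ≠ 0) (hy : y ≠ 0) (hz : z ≠ 0) (h : x ^ n + y ^ n = z ^ n) :
    |Algebra.norm ℚ x| ≠ |Algebra.norm ℚ y| ∧
    |Algebra.norm ℚ x| ≠ |Algebra.norm ℚ z| ∧
    |Algebra.norm ℚ y| ≠ |Algebra.norm ℚ z| := by
  obtain ⟨-, hT2, hT3, -⟩ := TypesAtSplitPrimes.result K hK p n hp h7 hn x y z h hx hy hz
  have hsame := hT2 hC
  -- no two different types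
  have hcross : ∀ a b c : K, TypesAtSplitPrimes.Rotation x y z a b c →
      ¬ ∃ v v' : HeightOneSpectrum (𝓞 K), ((p : ℕ) : 𝓞 K) ∈ v.asIdeal ∧
        ((p : ℕ) : 𝓞 K) ∈ v'.asIdeal ∧ TypesAtSplitPrimes.More v a b c ∧
        TypesAtSplitPrimes.More v' b c a := by
    intro a b c hR hcon
    rcases h1 with h1 | ⟨h1, hW⟩ | ⟨h1, hd, hW⟩
    · obtain ⟨v, v', hv, hv', m1, m2⟩ := hcon
      have e := h1 v v' hv hv'
      subst e
      exact lt_asymm m1.1 m2.2
    · obtain ⟨w, w', hw, hw', m1, m2⟩ := (hT3 2 Nat.prime_two hW (Or.inl rfl) a b c hR).2 hcon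
      have e := h1 w w' hw hw'
      subst e
      exact lt_asymm m1.1 m2.2
    · obtain ⟨w, w', hw, hw', m1, m2⟩ := (hT3 3 Nat.prime_three hW
        (Or.inr (Or.inl ⟨rfl, Or.inl (Int.emod_eq_zero_of_dvd hd)⟩)) a b c hR).2 hcon
      have e := h1 w w' hw hw'
      subst e
      exact lt_asymm m1.1 m2.2
  obtain ⟨k, rfl⟩ := hn
  have hk : k ≠ 0 := by
    rintro rfl
    simp at h
  have hodd : Odd p := hp.odd_of_ne_two (by omega)
  have hF : (x ^ k) ^ p + (y ^ k) ^ p + (-z ^ k) ^ p = 0 := by
    rw [hodd.neg_pow, ← pow_mul, ← pow_mul, ← pow_mul, mul_comm k p, h]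
    ring
  have hx' := pow_ne_zero k hx
  have hy' := pow_ne_zero k hy
  have hz' := neg_ne_zero.2 (pow_ne_zero k hz)
  have hlt : ∀ r s : WithZero (Multiplicative ℤ), r ^ k < s ^ k ↔ r < s := fun r s =>
    pow_lt_pow_iff_left₀ zero_le' zero_le' hk
  have heq : ∀ r s : WithZero (Multiplicative ℤ), r ^ k = s ^ k ↔ r = s := fun r s =>
    pow_left_inj₀ zero_le' zero_le' hk
  have hvx : ∀ v : HeightOneSpectrum (𝓞 K), v.valuation K (x ^ k) = v.valuation K x ^ k :=
    fun v => map_pow _ _ _
  have hvy : ∀ v : HeightOneSpectrum (𝓞 K), v.valuation K (y ^ k) = v.valuation K y ^ k :=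
    fun v => map_pow _ _ _
  have hvz : ∀ v : HeightOneSpectrum (𝓞 K), v.valuation K (-z ^ k) = v.valuation K z ^ k :=
    fun v => by rw [Valuation.map_neg, map_pow]
  have hN : ∀ u : K, |Algebra.norm ℚ (u ^ k)| = |Algebra.norm ℚ u| ^ k := fun u => by
    rw [map_pow, abs_pow]
  have hNm : |Algebra.norm ℚ (-z ^ k)| = |Algebra.norm ℚ z| ^ k := by
    have e : Algebra.norm ℚ (-z ^ k) = Algebra.norm ℚ (z ^ k) := by
      have e1 : -z ^ k = (algebraMap ℚ K (-1)) * z ^ k := by
        rw [map_neg, map_one]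
        ring
      rw [e1, map_mul, Algebra.norm_algebraMap, hK]
      norm_num
    rw [e, hN]
  refine ⟨?_, ?_, ?_⟩
  · intro e
    refine H576.FN.core K hK hp (by omega) hreg hx' hy' hz' hF ?_ ?_ (by rw [hN, hN, e])
    · intro v hv hs
      rw [hvx, hvy, hvz, heq, heq] at hs
      exact hsame v hv hs
    · intro v v' hv hv' hs
      rw [hvx, hvy, hvz, hvx, hvy, hvz, hlt, hlt, hlt, hlt] at hs
      exact hcross x y z (Or.inl ⟨rfl, rfl, rfl⟩) ⟨v, v', hv, hv', hs.1, hs.2.2, hs.2.1⟩
  · intro e
    refine H576.FN.core K hK hp (by omega) hreg hz' hx' hy' (by rw [← hF]; ring) ?_ ?_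
      (by rw [hN, hNm, e])
    · intro v hv hs
      rw [hvx, hvy, hvz, heq, heq] at hs
      exact hsame v hv ⟨hs.2, (hs.1.trans hs.2).symm⟩
    · intro v v' hv hv' hs
      rw [hvx, hvy, hvz, hvx, hvy, hvz, hlt, hlt, hlt, hlt] at hs
      exact hcross z x y (Or.inr (Or.inr ⟨rfl, rfl, rfl⟩)) ⟨v, v', hv, hv', hs.1, hs.2.2, hs.2.1⟩
  · intro e
    refine H576.FN.core K hK hp (by omega) hreg hy' hz' hx' (by rw [← hF]; ring) ?_ ?_
      (by rw [hN, hNm, e])
    · intro v hv hs
      rw [hvx, hvy, hvz, heq, heq] at hs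
      exact hsame v hv ⟨(hs.1.trans hs.2).symm, hs.1⟩
    · intro v v' hv hv' hs
      rw [hvx, hvy, hvz, hvx, hvy, hvz, hlt, hlt, hlt, hlt] at hs
      exact hcross y z x (Or.inr (Or.inl ⟨rfl, rfl, rfl⟩)) ⟨v, v', hv, hv', hs.1, hs.2.2, hs.2.1⟩

end Pool.Agent.Results.MP_50a406_nt.DistinctNorms
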