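import Pool.Agent.H577.SQ.Neg

set_option autoImplicit false

/-!
# A uniform bound for the number of solutions of Fermat's equation over all quadratic fields

Let `n ≥ 5` be prime to 6 and `Q` a natural number with `Q (2 log n + 5) ≤ n` and
`2 Q ≤ minFac n` (for a prime `n` the second condition follows from the first one). Then over all
quadratic fields `K` together there are at most `36 Q ^ 3 + 6 Q ^ 2 < n ^ 3` nontrivial points
`(x : y : z)` with `x ^ n + y ^ n = z ^ n` and height `H < Q ^ n / 4`.

Proof: the norms of the three sums of two of `x, y, -z` are `n`-th powers `r_i ^ n` up to a common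
factor, with `r_i < Q`. It is shown that the point is determined by the three numbers `r_i`, the
orders of the absolute values of `x, y, z` at the two real embeddings (for real fields), and by the
index `i` with the smallest `r_i` and the sign of an imaginary part (for imaginary fields). For
imaginary fields this uses that the point is a conjugate pair; for real fields the sums are
monotone functions on the pieces of the Fermat curve, and in all six possible relative positions
of the two orders these monotonicities contradict the existence of two different points with the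
same `r_i`.
-/

namespace Pool.Agent.Results.MP_50a406_nt.UniformCount

open NumberField Pool.Agent.W7.FH Height

/-- The points `(x / z, y / z)` in `ℂ ^ 2`, for all quadratic fields `K`, all embeddings `φ` of `K`
in `ℂ` and all nontrivial solutions of `x ^ n + y ^ n = z ^ n` with `x, y, z ≠ 0` in `K` for which
the height of `(x : y : z)` over `K` is smaller than `Q ^ n / 4`. -/
def Points (n Q : ℕ) : Set (ℂ × ℂ) :=
  {P | ∃ (K : Type) (_ : Field K) (_ : NumberField K) (φ : K →+* ℂ) (x y z : K),
    Module.finrank ℚ K = 2 ∧ x ≠ 0 ∧ y ≠ 0 ∧ z ≠ 0 ∧ x ^ n + y ^ n = z ^ n ∧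
    (¬ ∃ ζ : K, IsPrimitiveRoot ζ 6 ∧ y = x * ζ ^ 2 ∧ z = x * ζ) ∧
    4 * mulHeight ![x, y, z] < (Q : ℝ) ^ n ∧ P = (φ (x / z), φ (y / z))}

theorem result : ∀ (n Q : ℕ), 5 ≤ n → Nat.Coprime n 6 → 2 * Q ≤ n.minFac →
    (Q : ℝ) * (2 * Real.log n + 5) ≤ n →
    (Points n Q).Finite ∧ (Points n Q).ncard ≤ 36 * Q ^ 3 + 6 * Q ^ 2 ∧
      36 * Q ^ 3 + 6 * Q ^ 2 < n ^ 3 := by
  intro n Q h5 h6 hQ1 hQ
  have hodd : Odd n := by
    have hm : ∀ p : ℕ, p.Prime → p ∣ n → 2 + 1 < p := prime_gt_three h6
    exact odd_of_big (by norm_num) hm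
  obtain ⟨g1, g2⟩ := H577.SQ.card_le (Q := Q) h5 hodd (Points n Q) (by
    rintro P ⟨K, _, _, φ, x, y, z, hK, hx, hy, hz, hF, hnt, hH, rfl⟩
    have hF' : x ^ n + y ^ n + (-z) ^ n = 0 := by
      rw [hodd.neg_pow, hF, add_neg_cancel]
    have ht : ∀ i, (![x, y, -z] : Fin 3 → K) i ≠ 0 := by
      intro i
      fin_cases i
      · exact hx
      · exact hy
      · exact neg_ne_zero.2 hz
    have hP : ((φ (x / z), φ (y / z)) : ℂ × ℂ) =
        H577.SQ.pnt (fun i => φ ((![x, y, -z] : Fin 3 → K) i)) := by
      unfold H577.SQ.pnt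
      change _ = (-(φ x) / φ (-z), -(φ y) / φ (-z))
      rw [map_div₀, map_div₀, map_neg, neg_div_neg_eq, neg_div_neg_eq]
    rw [hP]
    exact H577.SQ.exists_code K hK h5 h6 hQ1 hQ ![x, y, -z] ht hF'
      (by
        change 4 * mulHeight ![x, y, -z] < _
        rw [H577.SQ.mulHeight_neg hx]
        exact hH)
      (fun h => hnt (trivial_form hx h.1 h.2)) φ)
  refine ⟨g1, g2, ?_⟩
  have h8 : 8 * Q ≤ n := by
    have h1 : (3 / 2 : ℝ) ≤ Real.log n := by
      have h2 : Real.log 5 ≤ Real.log n := by
        apply Real.log_le_log (by norm_num)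
        exact_mod_cast h5
      refine le_trans ?_ h2
      rw [Real.le_log_iff_exp_le (by norm_num)]
      have h3 : Real.exp (3 / 2) ^ 2 = Real.exp 1 ^ 3 := by
        rw [← Real.exp_nat_mul, ← Real.exp_nat_mul]
        norm_num
      have h4 := Real.exp_one_lt_d9
      have h5 := Real.exp_pos 1
      have h6 : Real.exp 1 ^ 3 ≤ 5 ^ 2 := by
        calc Real.exp 1 ^ 3 ≤ 2.7182818286 ^ 3 := by gcongr
          _ ≤ 5 ^ 2 := by norm_num
      rw [← h3] at h6
      exact le_of_pow_le_pow_left₀ two_ne_zero (by norm_num) h6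
    have h2 : (Q : ℝ) * 8 ≤ n := by
      refine le_trans ?_ hQ
      apply mul_le_mul_of_nonneg_left _ (by positivity)
      linarith
    have h3 : (Q * 8 : ℕ) ≤ n := by exact_mod_cast h2
    omega
  have h9 : (8 * Q) ^ 3 ≤ n ^ 3 := Nat.pow_le_pow_left h8 3
  have h10 : Q ^ 2 ≤ Q ^ 3 ∨ Q = 0 := by
    rcases Nat.eq_zero_or_pos Q with h | h
    · exact Or.inr h
    · exact Or.inl (Nat.pow_le_pow_right h (by norm_num))
  have h11 : 0 < n ^ 3 := by positivity
  rcases h10 with h | h
  · rcases Nat.eq_zero_or_pos Q with h0 | h0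
    · subst h0
      simpa using h11
    · have h12 : 0 < Q ^ 3 := by positivity
      have h13 : (8 * Q) ^ 3 = 512 * Q ^ 3 := by ring
      omega
  · subst h
    simpa using h11

end Pool.Agent.Results.MP_50a406_nt.UniformCount
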