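import Pool.Agent.H577.UQ.Final

set_option autoImplicit false

/-!
# Fermat's equation over all quadratic fields: solutions on curves of bounded degree and height

For all `D` and `H` there is `M` such that for all exponents `n > M` prime to `M` (in particular for all
primes `n > M`) and for ALL quadratic fields `K` simultaneously the following holds: a nontrivial
solution `(x : y : z)` of `x ^ n + y ^ n = z ^ n` over `K` does not lie on any plane curve `G = 0`,
`G` a form with rational integral coefficients of absolute value at most `H` and of degree at most `D`.
So on every fixed plane curve over `ℚ` (also of genus zero or one, a line for example, where there are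
infinitely many points over quadratic fields) all solutions over all quadratic fields are trivial for
all large prime exponents.

Proof. Let `a ^ n + b ^ n + c ^ n = 0`. If a prime ideal `q` divides `a + b` (after scaling), then
`q` divides `c` and the point is `q`-adically very near to the line `a + b = 0`. On the curve this
implies that `q` divides a number `r ≠ 0` which depends on `G` only, that `c` is not divisible by a
higher power of `q` than `r`, and `v_q (a + b) = n v_q (c)`. So up to a common factor the norms of
`a + b`, `b + c`, `c + a` are the `n`-th powers of natural numbers `r₃, r₁, r₂` from a finite set.
If these three numbers are equal, then they are `1` (three pairwise coprime ideals of the same norm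
`r` in a quadratic field would divide `r`), and there are no solutions (this case is the theorem
`unit_case` of the library). If they are not all equal, then at some infinite place the point is
exponentially near to one of the three lines, for example `a + b = 0`, so exponentially near to one of
the finitely many points `(-1 : 1 : t)` in which the line meets the curve. Then
`|a + b| / |b|` is, up to a constant factor, `|t| ^ n / n`. The product of these estimates over the two
infinite places (or the single complex one) contradicts the norm relations `r_i ^ n`, because of the
factor `n`; if one of the two real places is near a corner, where two of the sums are of size `1 / n`,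
the factors `n` may cancel and the constants are compared: `log 2 < 81 / 100`.
-/

namespace Pool.Agent.Results.MP_50a406_nt.UniformCurves

open NumberField

/-- For all `D` and `H` there is `M > 0` such that for all exponents `n > M` prime to `M`, all
quadratic fields `K` and all solutions of `x ^ n + y ^ n = z ^ n` in nonzero elements of `K`: the
solution is trivial, or it is not a zero of any nonzero form of degree at most `D` with integral
coefficients of absolute value at most `H`. -/
theorem result (D H : ℕ) : ∃ M : ℕ, 0 < M ∧ ∀ n > M, Nat.Coprime n M →
    ∀ (K : Type) [Field K] [NumberField K], Module.finrank ℚ K = 2 →
    ∀ x y z : K, x ≠ 0 → y ≠ 0 → z ≠ 0 → x ^ n + y ^ n = z ^ n →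
    (∃ ζ : K, IsPrimitiveRoot ζ 6 ∧ y = x * ζ ^ 2 ∧ z = x * ζ) ∨
    ∀ (d : ℕ) (G : MvPolynomial (Fin 3) ℤ), d ≤ D → G.IsHomogeneous d →
      (∀ m, |G.coeff m| ≤ H) → MvPolynomial.aeval ![x, y, z] G = 0 → G = 0 :=
  Pool.Agent.H577.UQ.bounded D H

end Pool.Agent.Results.MP_50a406_nt.UniformCurves
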